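import Pool.Agent.H12.Uni.FinGroup

/-!
# Hartshorne's conjecture for varieties with infinitely many automorphisms

A nonsingular irreducible closed `X ⊂ P^n` of codimension `r`, `n ≥ 16 r ^ 3 + 7`, which is not a
linear space or a quadric hypersurface in its linear span (in particular, every `X` which is not
a complete intersection), has only finitely many linear automorphisms, and each of them has order
at most `(2 d) ^ n` if `X` is cut out as a set by forms of degree at most `d`.
-/

open MvPolynomial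

namespace Pool.Agent.Results.MP_9a3fdb_ag.LinearSymmetry

/-- The affine cone over the projective zero set of `I`: the common zeros of all `f ∈ I`. -/
def Cone {n : ℕ} (I : Ideal (MvPolynomial (Fin (n + 1)) ℂ)) : Set (Fin (n + 1) → ℂ) :=
  {x | ∀ f ∈ I, eval x f = 0}

/-- The differential of `f` at `x`, as the vector of its partial derivatives. -/
noncomputable def grad {n : ℕ} (f : MvPolynomial (Fin (n + 1)) ℂ) (x : Fin (n + 1) → ℂ) :
    Fin (n + 1) → ℂ := fun i => eval x (pderiv i f)

/-- `I` is the homogeneous ideal of a nonsingular irreducible closed subvariety of `P^n` of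
codimension `r`: a homogeneous prime ideal with `dim ℂ[x₀,…,xₙ]/I = n + 1 - r` whose elements have,
at every nonzero point of the cone, differentials spanning an `r`-dimensional space. -/
structure IsNonsingularVariety (n r : ℕ) (I : Ideal (MvPolynomial (Fin (n + 1)) ℂ)) : Prop where
  prime : I.IsPrime
  homogeneous : ∀ f ∈ I, ∀ d, homogeneousComponent d f ∈ I
  dim : ringKrullDim (MvPolynomial (Fin (n + 1)) ℂ ⧸ I) + r = n + 1
  nonsingular : ∀ x ∈ Cone I, x ≠ 0 →
    Module.finrank ℂ (Submodule.span ℂ {v | ∃ f ∈ I, grad f x = v}) = r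

/-- `I` is generated by `r` forms of degrees `1` and `2`, at most one of them of degree `2`, whose
differentials are linearly independent at every nonzero point of the cone: `X` is a linear space
or a quadric hypersurface in a linear space, and the transversal intersection of `r`
hypersurfaces. -/
def IsLinearOrQuadric {n : ℕ} (r : ℕ) (I : Ideal (MvPolynomial (Fin (n + 1)) ℂ)) : Prop :=
  ∃ F : Fin r → MvPolynomial (Fin (n + 1)) ℂ, ∃ d : Fin r → ℕ,
    (∀ i, (F i).IsHomogeneous (d i)) ∧ (∀ i, d i = 1 ∨ d i = 2) ∧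
    (∀ i j, d i = 2 → d j = 2 → i = j) ∧
    I = Ideal.span (Set.range F) ∧
    ∀ x ∈ Cone I, x ≠ 0 → LinearIndependent ℂ (fun i => grad (F i) x)

/-- A linear automorphism of `X`: an element `g` of `GL(n + 1, ℂ)` which maps `X` into itself. -/
def IsLinearAutomorphism {n : ℕ} (I : Ideal (MvPolynomial (Fin (n + 1)) ℂ))
    (g : (Fin (n + 1) → ℂ) ≃ₗ[ℂ] (Fin (n + 1) → ℂ)) : Prop := ∀ x ∈ Cone I, g x ∈ Cone I

/-- The linear maps `g` and `h` induce the same map on the projective variety `X`. -/
def SameOn {n : ℕ} (I : Ideal (MvPolynomial (Fin (n + 1)) ℂ))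
    (g h : (Fin (n + 1) → ℂ) ≃ₗ[ℂ] (Fin (n + 1) → ℂ)) : Prop :=
  ∀ x ∈ Cone I, ∃ c : ℂ, g x = c • h x

/-- `X` is cut out, as a set, by the forms of degree at most `d` which vanish on it. -/
def IsCutOutInDegree {n : ℕ} (I : Ideal (MvPolynomial (Fin (n + 1)) ℂ)) (d : ℕ) : Prop :=
  ∀ x, (∀ f ∈ I, ∀ e ≤ d, f.IsHomogeneous e → eval x f = 0) → x ∈ Cone I

theorem cone_eq {n : ℕ} (I : Ideal (MvPolynomial (Fin (n + 1)) ℂ)) :
    Cone I = H89.Hart.cone I := rfl

theorem smooth {n r : ℕ} {I : Ideal (MvPolynomial (Fin (n + 1)) ℂ)}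
    (hX : IsNonsingularVariety n r I) : H89.Hart.Smooth I r := by
  have hN : ∀ x, Submodule.span ℂ {v | ∃ f ∈ I, grad f x = v} = H89.Hart.N I x := by
    intro x
    apply le_antisymm
    · rw [Submodule.span_le]
      rintro v ⟨f, hf, rfl⟩
      exact H89.Hart.mem_N.2 ⟨f, hf, rfl⟩
    · intro v hv
      obtain ⟨f, hf, rfl⟩ := H89.Hart.mem_N.1 hv
      exact Submodule.subset_span ⟨f, hf, rfl⟩
  exact { prime := hX.prime
          homog := hX.homogeneous
          rank := fun x hx hx0 => by rw [← hN]; exact hX.nonsingular x hx hx0 }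

theorem pow_eq_iterate {n : ℕ} (g : (Fin (n + 1) → ℂ) ≃ₗ[ℂ] (Fin (n + 1) → ℂ)) (m : ℕ)
    (x : Fin (n + 1) → ℂ) : (g ^ m) x = (⇑g)^[m] x := by
  induction m with
  | zero => rfl
  | succ m ih =>
    rw [pow_succ', Function.iterate_succ_apply', ← ih]
    rfl

/-- **Hartshorne's conjecture for varieties with infinitely many linear automorphisms** (and with
linear automorphisms of large order): if `n ≥ 16 r ^ 3 + 7` and `X ⊂ P^n` of codimension `r`, cut
out in degree `d`, is not a linear space or a quadric in its span, then the linear automorphisms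
of `X` form a finite group, each element of which has order at most `(2 d) ^ n`. -/
theorem result (n r d : ℕ) (I : Ideal (MvPolynomial (Fin (n + 1)) ℂ))
    (hn : 16 * r ^ 3 + 7 ≤ n) (hX : IsNonsingularVariety n r I) (hnot : ¬ IsLinearOrQuadric r I)
    (hd : 1 ≤ d) (hcut : IsCutOutInDegree I d) :
    ∃ S : Finset ((Fin (n + 1) → ℂ) ≃ₗ[ℂ] (Fin (n + 1) → ℂ)),
      ∀ g, IsLinearAutomorphism I g →
        (∃ h ∈ S, SameOn I g h) ∧ ∃ m, 0 < m ∧ m ≤ (2 * d) ^ n ∧ SameOn I (g ^ m) 1 := by
  have hS := smooth hX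
  have hfinite : ∃ S : Finset ((Fin (n + 1) → ℂ) ≃ₗ[ℂ] (Fin (n + 1) → ℂ)),
      ∀ g, IsLinearAutomorphism I g → ∃ h ∈ S, SameOn I g h := by
    by_contra hfin
    apply hnot
    by_cases hne : ∃ x ∈ H89.Hart.cone I, x ≠ 0
    · refine H12.Uni.reduction3 n r I hS hX.dim hne ?_
      intro κ _ _ L M r' hInv hLW hLM hsm hnd hr' hcard
      by_contra hcon
      obtain ⟨h1, h2⟩ := H12.Uni.bounds hn hr' hcard
      exact hfin (H12.Uni.finite_aut hS κ L M hInv hLW hLM hsm hnd h1 h2 hcon)
    · exfalso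
      apply hfin
      push Not at hne
      refine ⟨{1}, fun g _ => ⟨1, Finset.mem_singleton_self _, fun x hx => ⟨0, ?_⟩⟩⟩
      rw [hne x hx, map_zero, zero_smul]
  obtain ⟨S, hSfin⟩ := hfinite
  refine ⟨S, fun g hg => ⟨hSfin g hg, ?_⟩⟩
  by_contra hcon
  push Not at hcon
  have hord : ∀ N, 0 < N → N ≤ (2 * d) ^ n → ∃ x ∈ H89.Hart.cone I, ∀ c : ℂ,
      (⇑g)^[N] x ≠ c • x := by
    intro N hN hN'
    have h1 := hcon N hN hN'
    rw [SameOn] at h1
    push Not at h1
    obtain ⟨x, hx, hc⟩ := h1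
    exact ⟨x, hx, fun c h => hc c (by rw [pow_eq_iterate]; exact h)⟩
  exact hnot (H12.Uni.main_all n r d I hS hX.dim hd hcut g.toLinearMap g.injective hg hord hn)

end Pool.Agent.Results.MP_9a3fdb_ag.LinearSymmetry
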