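import Pool.Agent.H71.CI.Main

/-!
# Varieties that contain a complete intersection of small codimension

Let `X ⊂ P^n` be an irreducible closed subvariety of codimension `r`, possibly singular, and let
`Y ⊂ P^n` be a complete intersection of `c` hypersurfaces of arbitrary degrees `d₁, …, d_c`,
possibly singular or non-reduced, with `3 c ≤ n`. If `Y` is contained in `X` as a scheme and `X` is
nonsingular at the points of `Y`, then `X` is a complete intersection: the homogeneous ideal of `X`
is generated by `r` forms, whose degrees are `r` of the `dᵢ`, and whose differentials are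
independent at every nonsingular point of `X`.
-/

open MvPolynomial

namespace Pool.Agent.Results.MP_9a3fdb_ag.SubCompleteIntersection

/-- The affine cone over the projective zero set of `I`: the common zeros of all `f ∈ I`. -/
def Cone {n : ℕ} (I : Ideal (MvPolynomial (Fin (n + 1)) ℂ)) : Set (Fin (n + 1) → ℂ) :=
  {x | ∀ f ∈ I, eval x f = 0}

/-- The differential of `f` at `x`, as the vector of its partial derivatives. -/
noncomputable def grad {n : ℕ} (f : MvPolynomial (Fin (n + 1)) ℂ) (x : Fin (n + 1) → ℂ) :
    Fin (n + 1) → ℂ := fun i => eval x (pderiv i f)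

/-- `I` is the homogeneous ideal of an irreducible closed subvariety `X` of `P^n` of codimension
`r`: a homogeneous prime ideal with `dim ℂ[x₀,…,xₙ]/I = n + 1 - r`. Singularities are allowed. -/
structure IsVariety (n r : ℕ) (I : Ideal (MvPolynomial (Fin (n + 1)) ℂ)) : Prop where
  prime : I.IsPrime
  homogeneous : ∀ f ∈ I, ∀ d, homogeneousComponent d f ∈ I
  dim : ringKrullDim (MvPolynomial (Fin (n + 1)) ℂ ⧸ I) + r = n + 1

/-- The variety `X` of codimension `r` with ideal `I` is nonsingular at the point `x` (Jacobian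
criterion): the differentials at `x` of the elements of `I` span an `r`-dimensional space. -/
def NonsingularAt {n : ℕ} (r : ℕ) (I : Ideal (MvPolynomial (Fin (n + 1)) ℂ))
    (x : Fin (n + 1) → ℂ) : Prop :=
  Module.finrank ℂ (Submodule.span ℂ {v | ∃ f ∈ I, grad f x = v}) = r

/-- `f₁, …, f_c` are forms of degrees `d₁, …, d_c ≥ 1` which define a complete intersection of
codimension `c` in `P^n`: `dim ℂ[x₀,…,xₙ]/(f₁, …, f_c) = n + 1 - c`. -/
structure IsCompleteIntersection (n c : ℕ) (f : Fin c → MvPolynomial (Fin (n + 1)) ℂ)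
    (d : Fin c → ℕ) : Prop where
  degree : ∀ i, 1 ≤ d i ∧ (f i).IsHomogeneous (d i)
  dim : ringKrullDim (MvPolynomial (Fin (n + 1)) ℂ ⧸ Ideal.span (Set.range f)) + c = n + 1

theorem result (n r c : ℕ) (I : Ideal (MvPolynomial (Fin (n + 1)) ℂ)) (hX : IsVariety n r I)
    (f : Fin c → MvPolynomial (Fin (n + 1)) ℂ) (d : Fin c → ℕ)
    (hY : IsCompleteIntersection n c f d)
    -- `Y` is contained in `X` as a scheme
    (hYX : I ≤ Ideal.span (Set.range f))
    -- `X` is nonsingular at the points of `Y`
    (hns : ∀ x, x ≠ 0 → (∀ i, eval x (f i) = 0) → NonsingularAt r I x)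
    (hn : 3 * c ≤ n) :
    ∃ (τ : Fin r → Fin c) (F : Fin r → MvPolynomial (Fin (n + 1)) ℂ),
      Function.Injective τ ∧ (∀ i, (F i).IsHomogeneous (d (τ i))) ∧
      I = Ideal.span (Set.range F) ∧ Cone I = {x | ∀ i, eval x (F i) = 0} ∧
      ∀ x ∈ Cone I, x ≠ 0 → NonsingularAt r I x →
        LinearIndependent ℂ (fun i => grad (F i) x) := by
  classical
  have hN : ∀ x, Submodule.span ℂ {v | ∃ f ∈ I, grad f x = v} = H89.Hart.N I x := by
    intro x
    apply le_antisymm
    · rw [Submodule.span_le]
      rintro v ⟨f, hf, rfl⟩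
      exact H89.Hart.mem_N.2 ⟨f, hf, rfl⟩
    · intro v hv
      obtain ⟨f, hf, rfl⟩ := H89.Hart.mem_N.1 hv
      exact Submodule.subset_span ⟨f, hf, rfl⟩
  have hctx : H71.CI.Ctx I r f d :=
    { hom := fun i => (hY.degree i).2
      pos := fun i => (hY.degree i).1
      codim := by
        intro Q hQ hfQ
        have h1 : Ideal.span (Set.range f) ≤ Q := by
          rw [Ideal.span_le]
          rintro _ ⟨i, rfl⟩
          exact hfQ i
        have h2 : ringKrullDim (MvPolynomial (Fin (n + 1)) ℂ ⧸ Q) ≤
            ringKrullDim (MvPolynomial (Fin (n + 1)) ℂ ⧸ Ideal.span (Set.range f)) :=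
          ringKrullDim_le_of_surjective (Ideal.Quotient.factor h1)
            (Ideal.Quotient.factor_surjective h1)
        rw [H94.Cubic.dm_eq hQ.prime] at h2
        have h3 : ((H94.Cubic.dm Q : ℕ) : WithBot ℕ∞) + (c : WithBot ℕ∞) ≤ (n : WithBot ℕ∞) + 1 := by
          rw [← hY.dim]
          exact add_le_add_left h2 _
        rw [Fintype.card_fin, Fintype.card_fin]
        exact_mod_cast h3
      big := by
        rw [Fintype.card_fin, Fintype.card_fin]
        omega
      prime := hX.prime
      homog := hX.homogeneous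
      dim := by
        have h1 := hX.dim
        rw [H94.Cubic.dm_eq hX.prime] at h1
        rw [Fintype.card_fin]
        exact_mod_cast h1
      sub := hYX
      rank := fun x hx => by
        rw [← hN]
        exact hns x hx.1 hx.2 }
  obtain ⟨J, G, hJ, hGh, hG, hGli⟩ := H71.CI.main hctx
  let e : Fin r ≃ J := (Fintype.equivFinOfCardEq (by rw [Fintype.card_coe, hJ])).symm
  have hrange : Set.range (fun i => G (e i)) = G '' (J : Set (Fin c)) := by
    ext g
    constructor
    · rintro ⟨i, rfl⟩
      exact ⟨e i, (e i).2, rfl⟩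
    · rintro ⟨j, hj, rfl⟩
      exact ⟨e.symm ⟨j, hj⟩, by simp⟩
  refine ⟨fun i => e i, fun i => G (e i), fun i j hij => e.injective (Subtype.ext hij),
    fun i => hGh _ (e i).2, ?_, ?_, ?_⟩
  · rw [hrange]
    exact hG
  · apply Set.Subset.antisymm
    · intro y hy i
      exact hy _ (by rw [hG]; exact Ideal.subset_span ⟨e i, (e i).2, rfl⟩)
    · intro y hy g hg
      have : I ≤ RingHom.ker (eval y) := by
        rw [hG, ← hrange, Ideal.span_le]
        rintro _ ⟨i, rfl⟩
        exact hy i
      exact this hg
  · intro x hx hx0 hxr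
    have h1 := hGli x hx hx0 (by rw [← hN]; exact hxr)
    exact h1.comp e e.injective

end Pool.Agent.Results.MP_9a3fdb_ag.SubCompleteIntersection
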