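import Pool.Agent.H26.Deg.SweptFinal

/-!
# Hartshorne's conjecture for varieties swept out by a large family of lines

Let `X ⊂ P^n` be a nonsingular irreducible closed subvariety of codimension `r ≥ 1`, not contained
in a hyperplane. Suppose that through every point of a nonempty open subset of `X` the lines
contained in `X` form a family of codimension at most `c` in the `P^(n-1)` of all lines through the
point, where `c ≥ 2 r` and `n > 2 c + r (c - 2 r + 2)`. Then the ideal of `X` is generated by `r`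
forms of degrees `e₁, …, e_r` with `e₁ + ⋯ + e_r ≤ c`, and `X` is a transversal intersection of `r`
hypersurfaces. Nothing is assumed about the equations of `X`.
-/

open MvPolynomial

namespace Pool.Agent.Results.MP_9a3fdb_ag.SweptByLines

/-- The affine cone over the projective zero set of `I`: the common zeros of all `f ∈ I`. -/
def Cone {n : ℕ} (I : Ideal (MvPolynomial (Fin (n + 1)) ℂ)) : Set (Fin (n + 1) → ℂ) :=
  {x | ∀ f ∈ I, eval x f = 0}

/-- The differential of `f` at `x`, as the vector of its partial derivatives. -/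
noncomputable def grad {n : ℕ} (f : MvPolynomial (Fin (n + 1)) ℂ) (x : Fin (n + 1) → ℂ) :
    Fin (n + 1) → ℂ := fun i => eval x (pderiv i f)

/-- `I` is the homogeneous ideal of a nonsingular irreducible closed subvariety of `P^n` of
codimension `r`: a homogeneous prime ideal with `dim ℂ[x₀,…,xₙ]/I = n + 1 - r` whose elements have,
at every nonzero point of the cone, differentials spanning an `r`-dimensional space. -/
structure IsNonsingularVariety (n r : ℕ) (I : Ideal (MvPolynomial (Fin (n + 1)) ℂ)) : Prop where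
  prime : I.IsPrime
  homogeneous : ∀ f ∈ I, ∀ d, homogeneousComponent d f ∈ I
  dim : ringKrullDim (MvPolynomial (Fin (n + 1)) ℂ ⧸ I) + r = n + 1
  nonsingular : ∀ x ∈ Cone I, x ≠ 0 →
    Module.finrank ℂ (Submodule.span ℂ {v | ∃ f ∈ I, grad f x = v}) = r

/-- The vectors `w` such that `y + t w` is in the cone of `I` for all `t`. For `y ≠ 0` this is a
closed cone containing `y`, and for `w` not proportional to `y` it means that the line of `P^n`
joining the points `y` and `w` is contained in the projective zero set of `I`. -/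
def LinesThrough {n : ℕ} (I : Ideal (MvPolynomial (Fin (n + 1)) ℂ)) (y : Fin (n + 1) → ℂ) :
    Set (Fin (n + 1) → ℂ) :=
  {w | ∀ t : ℂ, y + t • w ∈ Cone I}

theorem result (n r c : ℕ) (hr : 1 ≤ r) (hrc : 2 * r ≤ c)
    (hn : 2 * c + r * (c - 2 * r + 2) < n)
    (I : Ideal (MvPolynomial (Fin (n + 1)) ℂ)) (hX : IsNonsingularVariety n r I)
    -- `X` is not contained in a hyperplane
    (hnd : ∀ a : Fin (n + 1) → ℂ, (∀ x ∈ Cone I, ∑ i, a i * x i = 0) → a = 0)
    -- for the points `y` of `X` outside of a hypersurface `u = 0` not containing `X`, the cone of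
    -- the lines through `y` contains an irreducible closed set of codimension `≤ c` in `ℂ^(n+1)`
    (u : MvPolynomial (Fin (n + 1)) ℂ) (hu : u ∉ I)
    (hlines : ∀ y ∈ Cone I, y ≠ 0 → eval y u ≠ 0 →
      ∃ Q : Ideal (MvPolynomial (Fin (n + 1)) ℂ), Q.IsPrime ∧ Cone Q ⊆ LinesThrough I y ∧
        n + 1 ≤ ringKrullDim (MvPolynomial (Fin (n + 1)) ℂ ⧸ Q) + c) :
    ∃ F : Fin r → MvPolynomial (Fin (n + 1)) ℂ, ∃ e : Fin r → ℕ,
      (∀ i, 1 ≤ e i) ∧ ∑ i, e i ≤ c ∧ (∀ i, (F i).IsHomogeneous (e i)) ∧
      I = Ideal.span (Set.range F) ∧ Cone I = {y | ∀ i, eval y (F i) = 0} ∧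
      ∀ y ∈ Cone I, y ≠ 0 → LinearIndependent ℂ (fun i => grad (F i) y) := by
  have hN : ∀ x, Submodule.span ℂ {v | ∃ f ∈ I, grad f x = v} = H89.Hart.N I x := by
    intro x
    apply le_antisymm
    · rw [Submodule.span_le]
      rintro v ⟨f, hf, rfl⟩
      exact H89.Hart.mem_N.2 ⟨f, hf, rfl⟩
    · intro v hv
      obtain ⟨f, hf, rfl⟩ := H89.Hart.mem_N.1 hv
      exact Submodule.subset_span ⟨f, hf, rfl⟩
  have hS : H89.Hart.Smooth I r :=
    { prime := hX.prime
      homog := hX.homogeneous
      rank := fun x hx hx0 => by rw [← hN]; exact hX.nonsingular x hx hx0 }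
  obtain ⟨G, e, he, hsum, hGh, hG, hGli⟩ := H26.Deg.swept_main hS hr
    (fun a ha => hnd a fun x hx => ha x hx) hu (c := c) (by
      intro y hy hy0 hyu
      obtain ⟨Q, hQ, hQl, hQd⟩ := hlines y hy hy0 hyu
      refine ⟨Q, hQ, fun w hw t => hQl hw t, ?_⟩
      rw [H94.Cubic.dm_eq hQ] at hQd
      rw [Fintype.card_fin]
      exact_mod_cast hQd) hrc (by rw [Fintype.card_fin]; omega)
  refine ⟨G, e, he, hsum, hGh, hG, ?_, hGli⟩
  apply Set.Subset.antisymm
  · intro y hy i
    exact hy _ (by rw [hG]; exact Ideal.subset_span ⟨i, rfl⟩)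
  · intro y hy g hg
    have : I ≤ RingHom.ker (eval y) := by
      rw [hG, Ideal.span_le]
      rintro _ ⟨i, rfl⟩
      exact hy i
    exact this hg

end Pool.Agent.Results.MP_9a3fdb_ag.SweptByLines
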