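import Pool.Agent.H94.Deg.Main

/-!
# Hartshorne's conjecture with a bound linear in the total degree of the equations

Let `X ⊂ P^n` be a nonsingular irreducible closed subvariety of codimension `r ≥ 1` whose ideal
contains `r` forms of degrees `d₁, …, d_r` with independent differentials at one point of `X` (in
other words, `X` is a component of multiplicity one of an intersection of `r` hypersurfaces of
these degrees; for example, `X` may be cut out by any number of forms of degree `≤ d`, and then
`dᵢ ≤ d`). If `n > 3 (d₁ + ⋯ + d_r)`, then the ideal of `X` is generated by `r` forms, and `X` is a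
transversal intersection of `r` hypersurfaces.
-/

open MvPolynomial

namespace Pool.Agent.Results.MP_9a3fdb_ag.TotalDegree

/-- The affine cone over the projective zero set of `I`: the common zeros of all `f ∈ I`. -/
def Cone {n : ℕ} (I : Ideal (MvPolynomial (Fin (n + 1)) ℂ)) : Set (Fin (n + 1) → ℂ) :=
  {x | ∀ f ∈ I, eval x f = 0}

/-- The differential of `f` at `x`, as the vector of its partial derivatives. -/
noncomputable def grad {n : ℕ} (f : MvPolynomial (Fin (n + 1)) ℂ) (x : Fin (n + 1) → ℂ) :
    Fin (n + 1) → ℂ := fun i => eval x (pderiv i f)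

/-- `I` is the homogeneous ideal of a nonsingular irreducible closed subvariety of `P^n` of
codimension `r`: a homogeneous prime ideal with `dim ℂ[x₀,…,xₙ]/I = n + 1 - r` whose elements have,
at every nonzero point of the cone, differentials spanning an `r`-dimensional space. -/
structure IsNonsingularVariety (n r : ℕ) (I : Ideal (MvPolynomial (Fin (n + 1)) ℂ)) : Prop where
  prime : I.IsPrime
  homogeneous : ∀ f ∈ I, ∀ d, homogeneousComponent d f ∈ I
  dim : ringKrullDim (MvPolynomial (Fin (n + 1)) ℂ ⧸ I) + r = n + 1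
  nonsingular : ∀ x ∈ Cone I, x ≠ 0 →
    Module.finrank ℂ (Submodule.span ℂ {v | ∃ f ∈ I, grad f x = v}) = r

theorem result (n r : ℕ) (hr : 1 ≤ r) (I : Ideal (MvPolynomial (Fin (n + 1)) ℂ))
    (hX : IsNonsingularVariety n r I)
    -- `r` forms in the ideal with independent differentials at one point `x` of `X`
    (f : Fin r → MvPolynomial (Fin (n + 1)) ℂ) (d : Fin r → ℕ) (hf : ∀ i, f i ∈ I)
    (hfd : ∀ i, (f i).IsHomogeneous (d i))
    (x : Fin (n + 1) → ℂ) (hx : x ∈ Cone I) (hx0 : x ≠ 0)
    (hli : LinearIndependent ℂ (fun i => grad (f i) x))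
    (hn : 3 * ∑ i, d i < n) :
    ∃ F : Fin r → MvPolynomial (Fin (n + 1)) ℂ, ∃ e : Fin r → ℕ,
      (∀ i, 1 ≤ e i ∧ e i ≤ d i) ∧ (∀ i, (F i).IsHomogeneous (e i)) ∧
      I = Ideal.span (Set.range F) ∧ Cone I = {y | ∀ i, eval y (F i) = 0} ∧
      ∀ y ∈ Cone I, y ≠ 0 → LinearIndependent ℂ (fun i => grad (F i) y) := by
  have hN : ∀ x, Submodule.span ℂ {v | ∃ f ∈ I, grad f x = v} = H89.Hart.N I x := by
    intro x
    apply le_antisymm
    · rw [Submodule.span_le]
      rintro v ⟨f, hf, rfl⟩
      exact H89.Hart.mem_N.2 ⟨f, hf, rfl⟩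
    · intro v hv
      obtain ⟨f, hf, rfl⟩ := H89.Hart.mem_N.1 hv
      exact Submodule.subset_span ⟨f, hf, rfl⟩
  have hS : H89.Hart.Smooth I r :=
    { prime := hX.prime
      homog := hX.homogeneous
      rank := fun x hx hx0 => by rw [← hN]; exact hX.nonsingular x hx hx0 }
  obtain ⟨G, e, he, hGh, hG, hGli⟩ := H94.Deg.main hS f d hf hfd hx hx0 hli hr
    (by rw [Fintype.card_fin]; omega)
  refine ⟨G, e, he, hGh, hG, ?_, hGli⟩
  apply Set.Subset.antisymm
  · intro y hy i
    exact hy _ (by rw [hG]; exact Ideal.subset_span ⟨i, rfl⟩)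
  · intro y hy g hg
    have : I ≤ RingHom.ker (eval y) := by
      rw [hG, Ideal.span_le]
      rintro _ ⟨i, rfl⟩
      exact hy i
    exact this hg

end Pool.Agent.Results.MP_9a3fdb_ag.TotalDegree
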